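import Pool.Agent.Helper74.CA.Stmts

/-!
Module FIN: the final theorem from the cases `m = 2` and `m = 3`.
-/

set_option autoImplicit false

namespace Pool.Agent.Helper74.CA

open Subgroup

/-- restriction of an automorphism to an invariant subgroup of a finite group -/
theorem fin_restr {G : Type} [Group G] [Finite G] (a : MulAut G) (P : Subgroup G)
    (hP : ∀ x ∈ P, a x ∈ P) : ∃ b : MulAut P, ∀ x : P, ((b x : P) : G) = a (x : G) := by
  let f : P →* P :=
    { toFun := fun x => ⟨a x.1, hP x.1 x.2⟩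
      map_one' := Subtype.ext (map_one a)
      map_mul' := fun x y => Subtype.ext (map_mul a x.1 y.1) }
  have hinj : Function.Injective f := by
    intro x y h
    have h1 : a x.1 = a y.1 := congrArg Subtype.val h
    exact Subtype.ext (a.injective h1)
  have hbij : Function.Bijective f := ⟨hinj, Finite.surjective_of_injective hinj⟩
  exact ⟨MulEquiv.ofBijective f hbij, fun x => rfl⟩

theorem fin_pow {G : Type} [Group G] (a : MulAut G) (P : Subgroup G) (b : MulAut P)
    (hb : ∀ x : P, ((b x : P) : G) = a (x : G)) (n : ℕ) (x : P) :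
    (((b ^ n) x : P) : G) = (a ^ n) (x : G) := by
  induction n with
  | zero => rfl
  | succ n ih =>
    rw [pow_succ', pow_succ', MulAut.mul_apply, MulAut.mul_apply, hb, ih]

theorem fin_pm {G : Type} [Group G] (p m k : ℕ) (hp : p.Prime) (x : G) (hx : x ≠ 1)
    (h1 : x ^ (p ^ k) = 1) (h2 : x ^ m = 1) : p ∣ m := by
  by_contra hcon
  apply hx
  have hc : Nat.Coprime (p ^ k) m := Nat.Coprime.pow_left k ((Nat.Prime.coprime_iff_not_dvd hp).2 hcon)
  have h3 : orderOf x ∣ 1 := by
    rw [← Nat.Coprime.gcd_eq_one hc]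
    exact Nat.dvd_gcd (orderOf_dvd_of_pow_eq_one h1) (orderOf_dvd_of_pow_eq_one h2)
  exact orderOf_eq_one_iff.1 (Nat.dvd_one.1 h3)

/-- an element of `p`-power order with `x ^ m = 1`, `p ^ 2` not dividing `m` -/
theorem fin_pp {G : Type} [Group G] (p m k : ℕ) (hp : p.Prime) (hm : ¬ p ^ 2 ∣ m) (x : G)
    (h1 : x ^ (p ^ k) = 1) (h2 : x ^ m = 1) : x ^ p = 1 := by
  obtain ⟨i, hi, he⟩ := (Nat.dvd_prime_pow hp).1 (orderOf_dvd_of_pow_eq_one h1)
  have h3 : orderOf x ∣ m := orderOf_dvd_of_pow_eq_one h2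
  rw [he] at h3
  have hi2 : i ≤ 1 := by
    by_contra hcon
    exact hm ((pow_dvd_pow p (by omega)).trans h3)
  apply orderOf_dvd_iff_pow_eq_one.1
  rw [he]
  calc p ^ i ∣ p ^ 1 := pow_dvd_pow p hi2
    _ = p := pow_one p

theorem fin_conj {G : Type} [Group G] (g h : G) (n : ℕ) (he : (h * g * h⁻¹) ^ n = 1) :
    g ^ n = 1 := by
  rw [conj_pow] at he
  have h1 : h * g ^ n = h := by
    have := congrArg (fun y => y * h) he
    simpa using this
  simpa using h1

theorem fin_card {G : Type} [Group G] [Finite G] (P : Subgroup G) (n : ℕ)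
    (h : n.Coprime (Nat.card G)) : n.Coprime (Nat.card P) :=
  Nat.Coprime.coprime_dvd_right (Subgroup.card_subgroup_dvd_card P) h

theorem st_FIN (hSYL : ST_SYL) (hTWO : ST_TWO) (hTHREE : ST_THREE) : ST_FIN := by
  intro G _ _ a m hm0 hcop hfix hcomm
  have han : a ^ orderOf a = 1 := pow_orderOf_eq_one a
  -- elements of order a power of 2
  have two : ¬ 4 ∣ m → ∀ (g : G) (j : ℕ), g ^ (2 ^ j) = 1 → g ^ 4 = 1 := by
    intro h4 g j hg
    obtain ⟨P, hPp, hPa, -, hPg⟩ := hSYL G a (orderOf a) 2 Nat.prime_two han hcop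
    obtain ⟨h, hh⟩ := hPg g ⟨j, hg⟩
    obtain ⟨b, hb⟩ := fin_restr a P hPa
    have hbn : b ^ orderOf a = 1 := by
      ext x
      rw [fin_pow a P b hb, han]
      rfl
    have key := hTWO P b (orderOf a) hbn (fin_card P _ hcop) (by
        intro x hx
        obtain ⟨k, hk⟩ := hPp x
        have h2 : (x : G) ^ m = 1 := hfix x (by rw [← hb, hx])
        exact fin_pp 2 m k Nat.prime_two h4 x hk (by
          apply Subtype.ext
          rw [Subgroup.coe_pow, h2]
          rfl)) (by
        intro x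
        obtain ⟨k, hk⟩ := hPp (x⁻¹ * b x)
        have h2 : ((x : G)⁻¹ * a x) ^ m = 1 := hcomm x
        exact fin_pp 2 m k Nat.prime_two h4 _ hk (by
          apply Subtype.ext
          rw [Subgroup.coe_pow, Subgroup.coe_mul, Subgroup.coe_inv, hb, h2]
          rfl)) ⟨h * g * h⁻¹, hh⟩
    apply fin_conj g h 4
    have := congrArg Subtype.val key
    simpa using this
  have three : ¬ 9 ∣ m → ∀ (g : G) (j : ℕ), g ^ (3 ^ j) = 1 → g ^ 27 = 1 := by
    intro h9 g j hg
    by_cases h3G : 3 ∣ Nat.card G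
    · obtain ⟨P, hPp, hPa, -, hPg⟩ := hSYL G a (orderOf a) 3 Nat.prime_three han hcop
      obtain ⟨h, hh⟩ := hPg g ⟨j, hg⟩
      obtain ⟨b, hb⟩ := fin_restr a P hPa
      have hbn : b ^ orderOf a = 1 := by
        ext x
        rw [fin_pow a P b hb, han]
        rfl
      have h9' : ¬ 3 ^ 2 ∣ m := by norm_num; exact h9
      have kb : KB P b (orderOf a) := by
        refine ⟨hbn, ?_, fin_card P _ hcop, ?_, ?_⟩
        · intro h3
          have : 3 ∣ Nat.gcd (orderOf a) (Nat.card G) := Nat.dvd_gcd h3 h3G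
          rw [Nat.Coprime.gcd_eq_one hcop] at this
          norm_num at this
        · intro x
          obtain ⟨k, hk⟩ := hPp (x⁻¹ * b x)
          have h2 : ((x : G)⁻¹ * a x) ^ m = 1 := hcomm x
          exact fin_pp 3 m k Nat.prime_three h9' _ hk (by
            apply Subtype.ext
            rw [Subgroup.coe_pow, Subgroup.coe_mul, Subgroup.coe_inv, hb, h2]
            rfl)
        · intro x hx
          obtain ⟨k, hk⟩ := hPp x
          have h2 : (x : G) ^ m = 1 := hfix x (by rw [← hb, hx])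
          exact fin_pp 3 m k Nat.prime_three h9' x hk (by
            apply Subtype.ext
            rw [Subgroup.coe_pow, h2]
            rfl)
      have key := hTHREE P b (orderOf a) hPp kb ⟨h * g * h⁻¹, hh⟩
      apply fin_conj g h 27
      have := congrArg Subtype.val key
      simpa using this
    · have hc : Nat.Coprime (3 ^ j) (Nat.card G) :=
        Nat.Coprime.pow_left j ((Nat.Prime.coprime_iff_not_dvd Nat.prime_three).2 h3G)
      have h3 : orderOf g ∣ 1 := by
        rw [← Nat.Coprime.gcd_eq_one hc]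
        exact Nat.dvd_gcd (orderOf_dvd_of_pow_eq_one hg) (orderOf_dvd_natCard g)
      rw [orderOf_eq_one_iff.1 (Nat.dvd_one.1 h3), one_pow]
  refine ⟨?_, two, three⟩
  intro h6
  have h4 : ¬ 4 ∣ m := fun h => by
    have := h.trans h6
    norm_num at this
  have h9 : ¬ 9 ∣ m := fun h => by
    have := h.trans h6
    norm_num at this
  -- primes dividing the order of the group
  have hprime : ∀ p : ℕ, p.Prime → p ∣ Nat.card G → p ∣ 6 := by
    intro p hp hpG
    obtain ⟨P, hPp, hPa, hne, -⟩ := hSYL G a (orderOf a) p hp han hcop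
    have hP := hne hpG
    obtain ⟨x, hx, hx1, hxm⟩ : ∃ x ∈ P, x ≠ 1 ∧ x ^ m = 1 := by
      by_cases hall : ∀ y ∈ P, a y = y
      · obtain ⟨x, hx1⟩ := (Subgroup.ne_bot_iff_exists_ne_one).1 hP
        exact ⟨(x : G), x.2, fun h => hx1 (Subtype.ext h), hfix x (hall x x.2)⟩
      · push Not at hall
        obtain ⟨y, hy, hya⟩ := hall
        refine ⟨y⁻¹ * a y, P.mul_mem (P.inv_mem hy) (hPa y hy), ?_, hcomm y⟩
        intro h
        apply hya
        exact (inv_mul_eq_one.1 h).symm
    obtain ⟨k, hk⟩ := hPp ⟨x, hx⟩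
    have hk' : x ^ (p ^ k) = 1 := by
      have := congrArg Subtype.val hk
      simpa using this
    exact (fin_pm p m k hp x hx1 hk' hxm).trans h6
  apply Monoid.exponent_dvd_of_forall_pow_eq_one
  intro g
  apply orderOf_dvd_iff_pow_eq_one.1
  have ho : orderOf g ≠ 0 := (orderOf_pos g).ne'
  obtain ⟨i, k, hk2, hik⟩ := Nat.exists_eq_pow_mul_and_not_dvd ho 2 (by norm_num)
  have hk0 : k ≠ 0 := by rintro rfl; exact ho (by rw [hik, mul_zero])
  obtain ⟨j, l, hl3, hjl⟩ := Nat.exists_eq_pow_mul_and_not_dvd hk0 3 (by norm_num)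
  have hl1 : l = 1 := by
    by_contra hne
    obtain ⟨p, hp, hpl⟩ := Nat.exists_prime_and_dvd hne
    have hp6 : p ∣ 6 := by
      apply hprime p hp
      refine (hpl.trans ?_).trans (orderOf_dvd_natCard g)
      rw [hik, hjl]
      exact (Dvd.intro_left _ rfl).mul_left _
    have h23 : p ∣ 2 * 3 := hp6
    rcases (Nat.Prime.dvd_mul hp).1 h23 with h | h
    · have : p = 2 := (Nat.prime_dvd_prime_iff_eq hp Nat.prime_two).1 h
      subst this
      exact hk2 (by rw [hjl]; exact hpl.mul_left _)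
    · have : p = 3 := (Nat.prime_dvd_prime_iff_eq hp Nat.prime_three).1 h
      subst this
      exact hl3 hpl
  rw [hl1, mul_one] at hjl
  rw [hjl] at hik
  have e1 : (g ^ (3 ^ j)) ^ (2 ^ i) = 1 := by
    rw [← pow_mul, mul_comm, ← hik, pow_orderOf_eq_one]
  have e2 : (g ^ (2 ^ i)) ^ (3 ^ j) = 1 := by
    rw [← pow_mul, ← hik, pow_orderOf_eq_one]
  have e3 := two h4 _ i e1
  have e4 := three h9 _ j e2
  rw [← pow_mul] at e3 e4
  have d3 : 2 ^ i ∣ 4 := by
    have h1 : orderOf g ∣ 3 ^ j * 4 := orderOf_dvd_of_pow_eq_one e3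
    rw [hik] at h1
    have hc : Nat.Coprime (2 ^ i) (3 ^ j) := Nat.Coprime.pow _ _ (by norm_num)
    exact hc.dvd_of_dvd_mul_left ((Dvd.intro _ rfl).trans h1)
  have d4 : 3 ^ j ∣ 27 := by
    have h1 : orderOf g ∣ 2 ^ i * 27 := orderOf_dvd_of_pow_eq_one e4
    rw [hik] at h1
    have hc : Nat.Coprime (3 ^ j) (2 ^ i) := Nat.Coprime.pow _ _ (by norm_num)
    exact hc.dvd_of_dvd_mul_left ((Dvd.intro_left _ rfl).trans h1)
  rw [hik]
  exact mul_dvd_mul d3 d4

end Pool.Agent.Helper74.CA
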